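import Pool.Agent.H23.NVK.ITargets

set_option autoImplicit false

open Set NumberField

namespace Pool.Agent.H78.NVK

open Pool.Agent.H23.NVK Pool.Agent.H28.RC

theorem pf_AXK (h_BRG : T_BRG) (h_ICN : T_ICN) : T_AXK := by
  classical
  intro k _ _ _
  obtain ⟨e, -, he2, -⟩ := h_BRG k
  obtain ⟨δ, C, hδ, hδ4, hC, hcount⟩ := h_ICN k
  have himg : ∀ y : ℝ, (fun n : PrI k →₀ ℕ => (e n).1) '' {n | (nF (NP k) n : ℝ) ≤ y} =
      {I : Ideal (𝓞 k) | I ≠ ⊥ ∧ (Ideal.absNorm I : ℝ) ≤ y} := by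
    intro y
    ext I
    constructor
    · rintro ⟨n, hn, rfl⟩
      refine ⟨(e n).2, ?_⟩
      show (Ideal.absNorm (e n).1 : ℝ) ≤ y
      rw [he2]
      exact hn
    · rintro ⟨hI, hy⟩
      refine ⟨e.symm ⟨I, hI⟩, ?_, by simp⟩
      show (nF (NP k) (e.symm ⟨I, hI⟩) : ℝ) ≤ y
      rw [← he2, Equiv.apply_symm_apply]
      exact hy
  have hinj : Function.Injective (fun n : PrI k →₀ ℕ => (e n).1) := fun m n h =>
    e.injective (Subtype.ext h)
  have hfin : ∀ y : ℝ, {n : PrI k →₀ ℕ | (nF (NP k) n : ℝ) ≤ y}.Finite := by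
    intro y
    have h1 : {n : PrI k →₀ ℕ | (nF (NP k) n : ℝ) ≤ max y 1}.Finite := by
      refine Set.Finite.of_finite_image ?_ (hinj.injOn)
      rw [himg]
      exact (hcount (max y 1) (le_max_right _ _)).1
    exact h1.subset fun n hn => le_trans hn (le_max_left y 1)
  refine ⟨δ, ?_, dedekindZeta_residue_pos k, hδ, hδ4, hfin, C, hC, ?_⟩
  · intro P
    have h0 : Ideal.absNorm P.1 ≠ 0 := fun h => P.2.2 (Ideal.absNorm_eq_zero_iff.1 h)
    have h1 : Ideal.absNorm P.1 ≠ 1 := fun h => P.2.1.ne_top (Ideal.absNorm_eq_one_iff.1 h)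
    show 2 ≤ Ideal.absNorm P.1
    omega
  · intro y hy
    have h1 : ((FM (NP k) y).card : ℝ) =
        ({I : Ideal (𝓞 k) | I ≠ ⊥ ∧ (Ideal.absNorm I : ℝ) ≤ y}.ncard : ℝ) := by
      have h2 : FM (NP k) y = (hfin y).toFinset := dif_pos (hfin y)
      rw [h2, ← himg y, Set.ncard_image_of_injective _ hinj,
        Set.ncard_eq_toFinset_card _ (hfin y)]
    rw [h1]
    exact (hcount y hy).2

end Pool.Agent.H78.NVK
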